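import Pool.Agent.W78.GA.Basic
import Pool.Agent.H376R2.MR.Dec

/-!
Project GA (helper78), task GA-12: the decomposition, first part (content of a product).
-/

set_option autoImplicit false

namespace Pool.Agent.W638.GA

open Finset Filter
open Pool.Agent.H376R2.MR hiding GG
open Pool.Agent.W78.GA

variable {t c : ℤ}

theorem nat_mul_re (n : ℕ) (z : Qd t c) : ((n : Qd t c) * z).re = n * z.re := by
  simp only [QuadraticAlgebra.re_mul, QuadraticAlgebra.re_natCast, QuadraticAlgebra.im_natCast]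
  ring

theorem nat_mul_im (n : ℕ) (z : Qd t c) : ((n : Qd t c) * z).im = n * z.im := by
  simp only [QuadraticAlgebra.im_mul, QuadraticAlgebra.re_natCast, QuadraticAlgebra.im_natCast]
  ring

/-- the content of `n z` for primitive `z` -/
theorem gcd_mul_prim {n : ℕ} {z : Qd t c} (hz : prim z) :
    Int.gcd ((n : Qd t c) * z).re ((n : Qd t c) * z).im = n := by
  rw [nat_mul_re, nat_mul_im, Int.gcd_mul_left]
  unfold prim at hz
  rw [hz]
  simp

theorem nat_mul_cancel {n : ℕ} (hn : n ≠ 0) {z z' : Qd t c}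
    (h : (n : Qd t c) * z = (n : Qd t c) * z') : z = z' := by
  have h1 := congrArg QuadraticAlgebra.re h
  have h2 := congrArg QuadraticAlgebra.im h
  rw [nat_mul_re, nat_mul_re] at h1
  rw [nat_mul_im, nat_mul_im] at h2
  have hn' : (n : ℤ) ≠ 0 := by exact_mod_cast hn
  exact QuadraticAlgebra.ext (mul_left_cancel₀ hn' h1) (mul_left_cancel₀ hn' h2)

theorem content_unique {n n' : ℕ} {z z' : Qd t c} (hz : prim z) (hz' : prim z') (hn : n ≠ 0)
    (h : (n : Qd t c) * z = (n' : Qd t c) * z') : n = n' ∧ z = z' := by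
  have h1 : n = n' := by
    rw [← gcd_mul_prim (n := n) hz, ← gcd_mul_prim (n := n') hz', h]
  subst h1
  exact ⟨rfl, nat_mul_cancel hn h⟩

theorem mul_cancel (hD : t ^ 2 < 4 * c) {a u u' : Qd t c} (ha : a ≠ 0) (h : a * u = a * u') :
    u = u' := by
  have h1 : ((nm a : ℕ) : Qd t c) * u = ((nm a : ℕ) : Qd t c) * u' := by
    rw [← star_mul_self' hD a, mul_assoc, mul_assoc, h]
  exact nat_mul_cancel (nm_pos hD ha).ne' h1

/-- the content of `a u` divides the norm of `a` if `u` is primitive -/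
theorem content_exists (hD : t ^ 2 < 4 * c) {a u : Qd t c} (ha : a ≠ 0) (hu : prim u) :
    ∃ n ∈ (nm a).divisors, ∃ z : Qd t c, prim z ∧ a * u = (n : Qd t c) * z := by
  set x := a * u with hx
  have hx0 : x ≠ 0 := by
    intro h
    have h1 : a * u = a * 0 := by rw [mul_zero, ← hx, h]
    exact prim_ne_zero hu (mul_cancel hD ha h1)
  set g := Int.gcd x.re x.im with hg
  have hg0 : 0 < g := by
    rw [Nat.pos_iff_ne_zero]
    intro h
    rw [hg, Int.gcd_eq_zero_iff] at h
    exact hx0 (QuadraticAlgebra.ext h.1 h.2)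
  obtain ⟨r, hr⟩ := Int.gcd_dvd_left x.re x.im
  obtain ⟨s, hs⟩ := Int.gcd_dvd_right x.re x.im
  rw [← hg] at hr hs
  have hxe : x = (g : Qd t c) * ⟨r, s⟩ := by
    apply QuadraticAlgebra.ext
    · rw [nat_mul_re]; exact hr
    · rw [nat_mul_im]; exact hs
  have hp : prim (⟨r, s⟩ : Qd t c) := by
    unfold prim
    show Int.gcd r s = 1
    have h1 : Int.gcd x.re x.im = g * Int.gcd r s := by
      rw [hr, hs, Int.gcd_mul_left]
      simp
    rw [← hg] at h1
    exact Nat.eq_of_mul_eq_mul_left hg0 (by rw [mul_one]; exact h1.symm)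
  refine ⟨g, ?_, _, hp, hxe⟩
  rw [Nat.mem_divisors]
  refine ⟨?_, (nm_pos hD ha).ne'⟩
  have h1 : (g : Qd t c) ∣ ((nm a : ℕ) : Qd t c) * u := by
    rw [← star_mul_self' hD a, mul_assoc, ← hx]
    exact Dvd.dvd.mul_left (Dvd.intro _ hxe.symm) _
  obtain ⟨h2, h3⟩ := natCast_dvd.1 h1
  rw [nat_mul_re] at h2
  rw [nat_mul_im] at h3
  have h4 := Int.dvd_coe_gcd h2 h3
  rw [Int.gcd_mul_left] at h4
  unfold prim at hu
  rw [hu] at h4
  have h5 : (g : ℤ) ∣ ((nm a : ℕ) : ℤ) := by simpa using h4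
  exact Int.natCast_dvd_natCast.1 h5

theorem lam_two {p q : ℕ} (hp : p.Prime) (hq : q.Prime) : lam (p * q) = 1 := by
  rw [lam_mul hp.ne_zero hq.ne_zero, lam_prime hp, lam_prime hq]
  norm_num

/-- the value of the term of `z` in the part of content `n` -/
noncomputable def Vl (m n : ℕ) (lZ : ℝ) (z : Qd t c) : ℝ :=
  (gl z : ℝ) * w (Real.log (nm z) + 2 * Real.log n - Real.log m - lZ) / (n : ℝ) ^ 2

theorem bg_zero (hD : t ^ 2 < 4 * c) {Z : ℝ} (hZ : 0 < Z) {z : Qd t c} (hz : prim z)
    (h : ¬ (nm z : ℝ) ≤ Real.exp 1 * Z) : w (Real.log (nm z) - Real.log Z) = 0 := by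
  have h0 := nm_posR hD (prim_ne_zero hz)
  rw [not_le] at h
  have h1 := Real.log_lt_log (by positivity) h
  rw [Real.log_mul (Real.exp_pos 1).ne' hZ.ne', Real.log_exp] at h1
  exact dec_w_zero (by rw [abs_of_pos (by linarith)]; linarith)

open scoped Classical in
/-- the product of one element with `G`, sorted by the content -/
theorem one_term (hD : t ^ 2 < 4 * c) {a : Qd t c} (ha : a ≠ 0) (hl : lam (nm a) = 1)
    {Z : ℝ} (hZ : 0 < Z) {D : Finset (Qd t c)}
    (hDD : ∀ z : Qd t c, prim z → (nm z : ℝ) ≤ nm a * (Real.exp 1 * Z) → z ∈ D)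
    (hDp : ∀ z ∈ D, prim z) (k : ℤ) :
    ps k a / ((nm a : ℕ) : ℂ) * GG t c Z k =
      ∑ z ∈ D, ((∑ n ∈ (nm a).divisors, (if ∃ u : Qd t c, prim u ∧ a * u = (n : Qd t c) * z then
        Vl (nm a) n (Real.log Z) z else 0) / nm z : ℝ) : ℂ) * ps k z := by
  have hm0 : 0 < nm a := nm_pos hD ha
  have hmR : (0 : ℝ) < nm a := nm_posR hD ha
  have hmC : ((nm a : ℕ) : ℂ) ≠ 0 := by exact_mod_cast hmR.ne'
  set U := pball t c (Real.exp 1 * Z) with hU
  set F : Qd t c → ℂ := fun u => (1 / ((nm a : ℕ) : ℂ)) * ((gl u : ℂ) * (bg Z u : ℂ)) *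
    ps k (a * u) with hF
  have e1 : ps k a / ((nm a : ℕ) : ℂ) * GG t c Z k = ∑ u ∈ U, F u := by
    unfold GG DPG
    rw [Finset.mul_sum]
    refine Finset.sum_congr rfl fun u _ => ?_
    simp only [hF]
    rw [ps_mul hD]
    ring
  have e2 : ∑ u ∈ U, F u = ∑ z ∈ D, ∑ n ∈ (nm a).divisors, ∑ u ∈ U,
      (if a * u = (n : Qd t c) * z then F u else 0) := by
    have h1 : ∀ u ∈ U, F u = ∑ z ∈ D, ∑ n ∈ (nm a).divisors,
        (if a * u = (n : Qd t c) * z then F u else 0) := by
      intro u hu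
      rw [hU, mem_pball hD] at hu
      obtain ⟨n, hn, z, hz, he⟩ := content_exists hD ha hu.1
      have hn0 : 0 < n := Nat.pos_of_mem_divisors hn
      have hnR : (1 : ℝ) ≤ n := by exact_mod_cast hn0
      have hzD : z ∈ D := by
        apply hDD z hz
        have h2 : nm a * nm u = n ^ 2 * nm z := by
          rw [← nm_mul, he, nm_mul, nm_natCast]
        have h3 : (nm a : ℝ) * nm u = (n : ℝ) ^ 2 * nm z := by exact_mod_cast h2
        have h4 : (0 : ℝ) ≤ nm z := Nat.cast_nonneg _
        have h5 : (1 : ℝ) ≤ (n : ℝ) ^ 2 := one_le_pow₀ hnR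
        calc (nm z : ℝ) ≤ (n : ℝ) ^ 2 * nm z := le_mul_of_one_le_left h4 h5
          _ = nm a * nm u := h3.symm
          _ ≤ nm a * (Real.exp 1 * Z) := mul_le_mul_of_nonneg_left hu.2 hmR.le
      rw [Finset.sum_eq_single_of_mem z hzD, Finset.sum_eq_single_of_mem n hn]
      · rw [if_pos he]
      · intro n' hn' hne
        rw [if_neg]
        intro h
        rw [he] at h
        exact hne (content_unique hz hz hn0.ne' h).1.symm
      · intro z' hz' hne
        refine Finset.sum_eq_zero fun n' hn' => ?_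
        rw [if_neg]
        intro h
        rw [he] at h
        exact hne (content_unique hz (hDp z' hz') hn0.ne' h).2.symm
    rw [Finset.sum_congr rfl h1, Finset.sum_comm]
    refine Finset.sum_congr rfl fun z _ => ?_
    rw [Finset.sum_comm]
  rw [e1, e2]
  refine Finset.sum_congr rfl fun z hz => ?_
  have hzp := hDp z hz
  have hN : (0 : ℝ) < nm z := nm_posR hD (prim_ne_zero hzp)
  have hNc : ((nm z : ℕ) : ℂ) ≠ 0 := by exact_mod_cast hN.ne'
  push_cast
  rw [Finset.sum_mul]
  refine Finset.sum_congr rfl fun n hn => ?_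
  have hn0 : 0 < n := Nat.pos_of_mem_divisors hn
  have hnR : (0 : ℝ) < n := by exact_mod_cast hn0
  have hnC : (n : ℂ) ≠ 0 := by exact_mod_cast hn0.ne'
  by_cases hex : ∃ u : Qd t c, prim u ∧ a * u = (n : Qd t c) * z
  · obtain ⟨u, hu, he⟩ := hex
    rw [if_pos ⟨u, hu, he⟩]
    have hNu : (0 : ℝ) < nm u := nm_posR hD (prim_ne_zero hu)
    have hNuc : ((nm u : ℕ) : ℂ) ≠ 0 := by exact_mod_cast hNu.ne'
    have h2 : nm a * nm u = n ^ 2 * nm z := by
      rw [← nm_mul, he, nm_mul, nm_natCast]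
    have h3 : (nm a : ℝ) * nm u = (n : ℝ) ^ 2 * nm z := by exact_mod_cast h2
    have h3c : ((nm a : ℕ) : ℂ) * ((nm u : ℕ) : ℂ) = (n : ℂ) ^ 2 * ((nm z : ℕ) : ℂ) := by
      exact_mod_cast h2
    have hlog : Real.log (nm u) = Real.log (nm z) + 2 * Real.log n - Real.log (nm a) := by
      have := congrArg Real.log h3
      rw [Real.log_mul hmR.ne' hNu.ne', Real.log_mul (by positivity) hN.ne', Real.log_pow] at this
      push_cast at this
      linarith
    have hgl : gl u = gl z := by
      have h4 : gl (a * u) = gl u := by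
        rw [gl_mul hD ha (prim_ne_zero hu)]
        unfold gl
        rw [hl, one_mul]
      rw [← h4, he, gl_natCast_mul hn0 hD (prim_ne_zero hzp)]
    have hps : ps k (a * u) = ps k z := by rw [he, ps_natCast_mul hD hn0]
    by_cases hin : u ∈ U
    · rw [Finset.sum_eq_single_of_mem u hin, if_pos he]
      · simp only [hF]
        rw [hps, hgl]
        unfold bg Vl
        rw [hlog]
        have e3 : Real.log (nm z) + 2 * Real.log n - Real.log (nm a) - Real.log Z =
          Real.log (nm z) + 2 * Real.log n - Real.log (nm a) - Real.log Z := rfl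
        push_cast
        have hd : (1 / ((nm a : ℕ) : ℂ)) / ((nm u : ℕ) : ℂ) =
            1 / (n : ℂ) ^ 2 / ((nm z : ℕ) : ℂ) := by
          rw [div_div, div_div, h3c]
        linear_combination ((gl z : ℂ) * ((w (Real.log (nm z) + 2 * Real.log n -
          Real.log (nm a) - Real.log Z) : ℝ) : ℂ) * ps k z) * hd
      · intro u' hu' hne
        rw [if_neg]
        intro h
        rw [← he] at h
        exact hne (mul_cancel hD ha h)
    · have hw : w (Real.log (nm u) - Real.log Z) = 0 := by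
        apply bg_zero hD hZ hu
        intro h
        apply hin
        rw [hU, mem_pball hD]
        exact ⟨hu, h⟩
      rw [Finset.sum_eq_zero]
      · unfold Vl
        rw [← hlog, hw]
        simp
      · intro u' hu'
        rw [if_neg]
        intro h
        rw [← he] at h
        rw [mul_cancel hD ha h] at hu'
        exact hin hu'
  · rw [if_neg hex, Finset.sum_eq_zero]
    · simp
    · intro u hu
      rw [if_neg]
      intro h
      rw [hU, mem_pball hD] at hu
      exact hex ⟨u, hu.1, h⟩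

end Pool.Agent.W638.GA
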