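import Pool.Agent.W638.GA.Dec2
import Pool.Agent.H376R2.MR.Mert

/-!
Project GA (helper78), task GA-12: the decomposition, third part (arithmetic of the elements,
windows, primes in a range).
-/

set_option autoImplicit false

namespace Pool.Agent.W638.GA

open Finset Filter
open Pool.Agent.H376R2.MR hiding GG Sm
open Pool.Agent.W78.GA

variable {t c : ℤ} {Ap Bp M : ℕ → Prop} {E : ℕ} {ρ : ℕ → ℤ} {ϖ : ℕ → Qd t c}

theorem sm_one : Sm Ap Bp 1 := by
  refine ⟨one_ne_zero, ?_⟩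
  intro p hp h
  exact absurd (Nat.dvd_one.1 h) hp.one_lt.ne'

theorem sm_prime {q : ℕ} (hq : q.Prime) (h : Ap q ∨ Bp q) : Sm Ap Bp q := by
  refine ⟨hq.ne_zero, ?_⟩
  intro p hp hpq
  rw [(Nat.prime_dvd_prime_iff_eq hp hq).1 hpq]
  exact h

theorem sm_mul {a b : ℕ} (ha : Sm Ap Bp a) (hb : Sm Ap Bp b) : Sm Ap Bp (a * b) := by
  refine ⟨Nat.mul_ne_zero ha.1 hb.1, ?_⟩
  intro p hp h
  rcases (Nat.Prime.dvd_mul hp).1 h with h | h
  · exact ha.2 p hp h
  · exact hb.2 p hp h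

theorem sm_dvd {a b : ℕ} (hb : Sm Ap Bp b) (h : a ∣ b) : Sm Ap Bp a := by
  refine ⟨?_, ?_⟩
  · rintro rfl
    exact hb.1 (Nat.eq_zero_of_zero_dvd h)
  · intro p hp hpa
    exact hb.2 p hp (hpa.trans h)

theorem lat_of_lat {d e : ℕ} {r s : ℤ} (hde : d ∣ e) (h : (d : ℤ) ∣ s - r) {z : Qd t c}
    (hz : lat e s z) : lat d r z := by
  unfold lat at *
  have h1 : (d : ℤ) ∣ (e : ℤ) := Int.natCast_dvd_natCast.2 hde
  have h2 : (d : ℤ) ∣ z.re + s * z.im := h1.trans hz
  have h3 : z.re + r * z.im = (z.re + s * z.im) - (s - r) * z.im := by ring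
  rw [h3]
  exact dvd_sub h2 (h.mul_right _)

theorem star_not_lat (hD : t ^ 2 < 4 * c) (he : Ele t c Ap Bp M E ρ ϖ) {m q : ℕ} (hm : M m)
    (hSm : Sm Ap Bp m) (hq : q.Prime) (hAB : Ap q ∨ Bp q) (hqm : q ∣ m) (hq2 : ¬ q ^ 2 ∣ m) :
    ¬ lat q (ρ q) (star (ϖ m)) := by
  intro h
  obtain ⟨hn, hl⟩ := he.elt m hm
  have h1 : lat q (ρ q) (ϖ m) := lat_of_lat hqm (he.compat q m hSm hqm) hl
  have hqi : Prime (q : ℤ) := Nat.prime_iff_prime_int.1 hq
  have hroot := he.root q (sm_prime hq hAB)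
  have hdisc : ¬ (q : ℤ) ∣ t ^ 2 - 4 * c := by
    rcases hAB with h | h
    · exact (he.prA q h).2.2
    · exact (he.prB q h).2.2
  unfold lat at h h1
  simp only [QuadraticAlgebra.re_star, QuadraticAlgebra.im_star] at h
  have h2 : (q : ℤ) ∣ (t - 2 * ρ q) * (ϖ m).im := by
    have e : (t - 2 * ρ q) * (ϖ m).im = ((ϖ m).re + t * (ϖ m).im + ρ q * -(ϖ m).im) -
        ((ϖ m).re + ρ q * (ϖ m).im) := by ring
    rw [e]
    exact dvd_sub h h1
  have h3 : (q : ℤ) ∣ (ϖ m).im := by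
    rcases hqi.dvd_or_dvd h2 with h3 | h3
    · exfalso
      apply hdisc
      have e : t ^ 2 - 4 * c = (t - 2 * ρ q) * (t - 2 * ρ q) - 4 * (ρ q ^ 2 - t * ρ q + c) := by
        ring
      rw [e]
      exact dvd_sub (h3.mul_right _) (hroot.mul_left _)
    · exact h3
  have h4 : (q : ℤ) ∣ (ϖ m).re := by
    have e : (ϖ m).re = ((ϖ m).re + ρ q * (ϖ m).im) - ρ q * (ϖ m).im := by ring
    rw [e]
    exact dvd_sub h1 (h3.mul_left (ρ q))
  obtain ⟨a, ha⟩ := h4
  obtain ⟨b, hb⟩ := h3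
  apply hq2
  have h5 : ((q ^ 2 : ℕ) : ℤ) ∣ (m : ℤ) := by
    rw [← hn, nm_cast hD, ha, hb]
    push_cast
    exact ⟨a ^ 2 + t * a * b + c * b ^ 2, by ring⟩
  exact_mod_cast h5

theorem lat_of_content (hD : t ^ 2 < 4 * c) (he : Ele t c Ap Bp M E ρ ϖ) {m n q : ℕ} (hm : M m)
    (hSm : Sm Ap Bp m) (hq : q.Prime) (hAB : Ap q ∨ Bp q) (hn : n ≠ 0) (hqm : n * q ∣ m)
    (hq2 : ¬ q ^ 2 ∣ m) {u z : Qd t c} (h : ϖ m * u = (n : Qd t c) * z) : lat q (ρ q) z := by
  have hns := star_not_lat hD he hm hSm hq hAB ((Dvd.intro_left _ rfl).trans hqm) hq2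
  obtain ⟨r, hr⟩ := hqm
  have h1 : (n : Qd t c) * (star (ϖ m) * z) = (n : Qd t c) * (((q * r : ℕ) : Qd t c) * u) := by
    have h2 : star (ϖ m) * (ϖ m * u) = ((m : ℕ) : Qd t c) * u := by
      rw [← mul_assoc, star_mul_self' hD, (he.elt m hm).1]
    rw [h] at h2
    have h3 : (n : Qd t c) * (star (ϖ m) * z) = star (ϖ m) * ((n : Qd t c) * z) := by ring
    rw [h3, h2, hr]
    push_cast
    ring
  have h2 := nat_mul_cancel hn h1
  have h3 : lat q (ρ q) (star (ϖ m) * z) := by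
    rw [h2]
    unfold lat
    rw [nat_mul_re, nat_mul_im]
    push_cast
    exact ⟨r * u.re + ρ q * (r * u.im), by ring⟩
  have h4 := lat_mul_eq (he.root q (sm_prime hq hAB)) (star (ϖ m)) z
  have hqi : Prime (q : ℤ) := Nat.prime_iff_prime_int.1 hq
  unfold lat at h3 hns ⊢
  have h5 := (dvd_sub_right h3).1 h4
  rcases hqi.dvd_or_dvd h5 with h6 | h6
  · exact absurd h6 hns
  · exact h6

theorem win_lat (hD : t ^ 2 < 4 * c) (hI : S_LATI t c) : ∃ C : ℝ, 0 < C ∧ ∀ (d : ℕ) (r : ℤ),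
    1 ≤ d → (d : ℤ) ∣ r ^ 2 - t * r + c → ∀ Z : ℝ, 0 < Z →
      ∑ z ∈ (win t c Z).filter (lat d r), 1 / (nm z : ℝ) ≤ C / d := by
  obtain ⟨C, hC, h⟩ := hI
  refine ⟨6 * C, by positivity, ?_⟩
  intro d r hd hr Z hZ
  obtain ⟨-, -, h3⟩ := h d r hd hr
  have he : Real.exp 2 * Z / (Z / Real.exp 3) = Real.exp 5 := by
    have : Real.exp 5 = Real.exp 2 * Real.exp 3 := by rw [← Real.exp_add]; norm_num
    rw [this]
    field_simp
  have h1e : (1 : ℝ) ≤ Real.exp 3 := Real.one_le_exp (by norm_num)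
  have h2e : (1 : ℝ) ≤ Real.exp 2 := Real.one_le_exp (by norm_num)
  have h4 := h3 (Z / Real.exp 3) (Real.exp 2 * Z) (by positivity) (by
    calc Z / Real.exp 3 ≤ Z := div_le_self hZ.le h1e
      _ ≤ Real.exp 2 * Z := le_mul_of_one_le_left hZ.le h2e)
  rw [he, Real.log_exp] at h4
  refine (Finset.sum_le_sum_of_subset_of_nonneg ?_ ?_).trans (h4.trans (le_of_eq ?_))
  · intro z hz
    rw [mem_filter, mem_win hD] at hz
    rw [mem_filter, mem_ann hD]
    obtain ⟨⟨h5, h6, h7⟩, h8⟩ := hz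
    refine ⟨⟨h5, lt_of_lt_of_le ?_ h6, h7⟩, h8⟩
    exact div_lt_div_of_pos_left hZ (Real.exp_pos 2) (Real.exp_lt_exp.2 (by norm_num))
  · intro z _ _
    positivity
  · ring

theorem win_two (he : Ele t c Ap Bp M E ρ ϖ) {C : ℝ} (hC : 0 < C)
    (hw : ∀ (d : ℕ) (r : ℤ), 1 ≤ d → (d : ℤ) ∣ r ^ 2 - t * r + c → ∀ Z : ℝ, 0 < Z →
      ∑ z ∈ (win t c Z).filter (lat d r), 1 / (nm z : ℝ) ≤ C / d)
    {q q' : ℕ} (hq : Sm Ap Bp q) (hq' : Sm Ap Bp q') (h : q = q' ∨ q.Coprime q') {Z : ℝ}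
    (hZ : 0 < Z) :
    ∑ z ∈ win t c Z, (if lat q (ρ q) z ∧ lat q' (ρ q') z then 1 / (nm z : ℝ) else 0) ≤
      C * (1 / ((q : ℝ) * q') + if q = q' then 1 / (q : ℝ) else 0) := by
  have hq0 : 0 < q := Nat.pos_of_ne_zero hq.1
  have hq0' : 0 < q' := Nat.pos_of_ne_zero hq'.1
  rcases h with h | h
  · subst h
    simp only [and_self, if_true]
    rw [← Finset.sum_filter]
    refine (hw q (ρ q) hq0 (he.root q hq) Z hZ).trans ?_
    have h1 : C / (q : ℝ) = C * (1 / (q : ℝ)) := by ring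
    rw [h1]
    apply mul_le_mul_of_nonneg_left _ hC.le
    have : 0 ≤ 1 / ((q : ℝ) * q) := by positivity
    linarith
  · rw [← Finset.sum_filter]
    have hqq := sm_mul hq hq'
    have h1 := hw (q * q') (ρ (q * q')) (Nat.mul_pos hq0 hq0') (he.root _ hqq) Z hZ
    refine (Finset.sum_le_sum_of_subset_of_nonneg ?_ ?_).trans (h1.trans ?_)
    · intro z hz
      rw [mem_filter] at hz ⊢
      refine ⟨hz.1, ?_⟩
      obtain ⟨h2, h3⟩ := hz.2
      unfold lat at *
      have e1 : (q : ℤ) ∣ z.re + ρ (q * q') * z.im := by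
        have h4 := he.compat q (q * q') hqq (Dvd.intro _ rfl)
        have : z.re + ρ (q * q') * z.im = (z.re + ρ q * z.im) + (ρ (q * q') - ρ q) * z.im := by
          ring
        rw [this]
        exact dvd_add h2 (h4.mul_right _)
      have e2 : (q' : ℤ) ∣ z.re + ρ (q * q') * z.im := by
        have h4 := he.compat q' (q * q') hqq (Dvd.intro_left _ rfl)
        have : z.re + ρ (q * q') * z.im = (z.re + ρ q' * z.im) + (ρ (q * q') - ρ q') * z.im := by
          ring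
        rw [this]
        exact dvd_add h3 (h4.mul_right _)
      push_cast
      exact IsCoprime.mul_dvd (Nat.isCoprime_iff_coprime.2 h) e1 e2
    · intro z _ _
      positivity
    · push_cast
      have h5 : 0 ≤ (if q = q' then 1 / (q : ℝ) else 0) := by split_ifs <;> positivity
      have h6 : C / ((q : ℝ) * q') = C * (1 / ((q : ℝ) * q')) := by ring
      rw [h6]
      apply mul_le_mul_of_nonneg_left _ hC.le
      linarith

/-- primes between `p^{1/E}` and `p^E` -/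
theorem mert_range (E : ℕ) (hE : 1 ≤ E) : ∃ C : ℝ, 1 ≤ C ∧ ∀ (p : ℕ) (T : Finset ℕ), 5 ≤ p →
    (∀ q ∈ T, q.Prime ∧ 5 ≤ q ∧ p ≤ q ^ E ∧ q ≤ p ^ E) → ∑ q ∈ T, 1 / (q : ℝ) ≤ C := by
  obtain ⟨C, hC, hW⟩ := WW_bound
  have hE1 : (1 : ℝ) ≤ E := by exact_mod_cast hE
  refine ⟨C + (2 * (E : ℝ) ^ 2 + 6 * E), by nlinarith, ?_⟩
  intro p T hp hT
  have he5 : Real.exp 1 < 5 := lt_trans Real.exp_one_lt_d9 (by norm_num)
  have hlog5 : ∀ q : ℕ, 5 ≤ q → 1 ≤ Real.log q := by
    intro q hq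
    rw [Real.le_log_iff_exp_le (by positivity)]
    have : (5 : ℝ) ≤ q := by exact_mod_cast hq
    linarith
  set L := Real.log p with hL
  have hL1 : 1 ≤ L := hlog5 p hp
  set v₀ : ℕ := max 1 ⌊L / E⌋₊ with hv₀
  set v₁ : ℕ := ⌊E * L⌋₊ + 1 with hv₁
  have hv01 : v₀ ≤ v₁ := by
    rw [hv₀, hv₁]
    apply max_le (by omega)
    have : ⌊L / E⌋₊ ≤ ⌊E * L⌋₊ := by
      apply Nat.floor_le_floor
      calc L / E ≤ L := div_le_self (by linarith) hE1
        _ ≤ E * L := le_mul_of_one_le_left (by linarith) hE1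
    omega
  have hv0pos : 1 ≤ v₀ := le_max_left _ _
  have h1 := hW 1 v₀ v₁ le_rfl hv0pos hv01
  have h2 : ∑ q ∈ T, 1 / (q : ℝ) ≤ WW 1 v₀ v₁ := by
    rw [← Finset.sum_fiberwise_of_maps_to (t := Ico v₀ v₁) (g := fun q : ℕ => ⌊Real.log q⌋₊)]
    · unfold WW
      refine Finset.sum_le_sum fun v _ => ?_
      unfold mm
      refine Finset.sum_le_sum_of_subset_of_nonneg ?_ ?_
      · intro q hq
        rw [mem_filter] at hq
        obtain ⟨hq1, hq2⟩ := hq
        obtain ⟨hqp, hq5, -, -⟩ := hT q hq1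
        have hq0 : (0 : ℝ) < q := by exact_mod_cast hqp.pos
        have hlq := hlog5 q hq5
        have h3 := Nat.floor_le (show 0 ≤ Real.log q by linarith)
        have h4 := Nat.lt_floor_add_one (Real.log q)
        rw [hq2] at h3 h4
        unfold cell
        rw [mem_filter, mem_range]
        refine ⟨?_, hqp, by simpa using h3, by simpa using h4⟩
        have h5 : (q : ℝ) ≤ Real.exp (((v : ℝ) + 1) / (1 : ℕ)) := by
          rw [← Real.log_le_iff_le_exp hq0]
          simpa using h4.le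
        have := Nat.le_floor h5
        omega
      · intro q _ _
        positivity
    · intro q hq
      obtain ⟨hqp, hq5, hq1, hq2⟩ := hT q hq
      have hq0 : (0 : ℝ) < q := by exact_mod_cast hqp.pos
      have hp0 : (0 : ℝ) < p := by
        have : 0 < p := by omega
        exact_mod_cast this
      have hlq := hlog5 q hq5
      have h3 : L ≤ E * Real.log q := by
        rw [hL, ← Real.log_pow]
        apply Real.log_le_log hp0
        exact_mod_cast hq1
      have h4 : Real.log q ≤ E * L := by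
        rw [hL, ← Real.log_pow]
        apply Real.log_le_log hq0
        exact_mod_cast hq2
      rw [mem_Ico]
      constructor
      · rw [hv₀]
        apply max_le
        · exact Nat.le_floor (by simpa using hlq)
        · apply Nat.floor_le_floor
          rw [div_le_iff₀ (by linarith)]
          linarith
      · rw [hv₁]
        have := Nat.floor_le_floor h4
        omega
  have h3 : Real.log ((v₁ : ℝ) / v₀) ≤ 2 * (E : ℝ) ^ 2 + 6 * E := by
    have hv0R : (0 : ℝ) < v₀ := by exact_mod_cast hv0pos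
    have h4 : (v₁ : ℝ) ≤ E * L + 1 := by
      rw [hv₁]
      push_cast
      have := Nat.floor_le (show 0 ≤ E * L by positivity)
      linarith
    have h5 : L / (2 * E) ≤ v₀ := by
      rw [hv₀]
      push_cast
      by_cases h6 : L / E ≤ 2
      · apply le_max_of_le_left
        have : L / (2 * E) = (L / E) / 2 := by field_simp
        rw [this]
        linarith
      · apply le_max_of_le_right
        have h7 := Nat.lt_floor_add_one (L / E)
        have : L / (2 * E) = (L / E) / 2 := by field_simp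
        rw [this]
        linarith
    have h6 : (v₁ : ℝ) / v₀ ≤ 2 * (E : ℝ) ^ 2 + 6 * E := by
      rw [div_le_iff₀ hv0R]
      have h7 : (2 * (E : ℝ) ^ 2 + 6 * E) * (L / (2 * E)) = E * L + 3 * L := by
        field_simp
        ring
      have h8 : (2 * (E : ℝ) ^ 2 + 6 * E) * (L / (2 * E)) ≤ (2 * (E : ℝ) ^ 2 + 6 * E) * v₀ :=
        mul_le_mul_of_nonneg_left h5 (by positivity)
      linarith
    have hv1R : (0 : ℝ) < (v₁ : ℝ) / v₀ := by
      have : (0 : ℝ) < v₁ := by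
        have : 0 < v₁ := by omega
        exact_mod_cast this
      positivity
    have := Real.log_le_sub_one_of_pos hv1R
    linarith
  have h4 := (abs_le.1 h1).2
  linarith

end Pool.Agent.W638.GA
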