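import Pool.Agent.W638.GA.Dec3

/-!
Project GA (helper78), task GA-12: the decomposition, fourth part (the identity).
-/

set_option autoImplicit false

namespace Pool.Agent.W638.GA

open Finset Filter
open Pool.Agent.H376R2.MR hiding GG Sm
open Pool.Agent.W78.GA

variable {t c : ℤ} {Ap Bp M : ℕ → Prop} {E : ℕ} {ρ : ℕ → ℤ} {ϖ : ℕ → Qd t c}

theorem cellM_facts {H v m : ℕ} (hm : m ∈ cellM M H v) :
    M m ∧ (v : ℝ) / H ≤ Real.log m ∧ Real.log m < ((v : ℝ) + 1) / H := by
  classical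
  unfold cellM at hm
  rw [mem_filter] at hm
  exact hm.2

theorem cellM_disj {H : ℕ} (hH : 1 ≤ H) {v v' m : ℕ} (h : m ∈ cellM M H v)
    (h' : m ∈ cellM M H v') : v = v' := by
  obtain ⟨-, h1, h2⟩ := cellM_facts h
  obtain ⟨-, h3, h4⟩ := cellM_facts h'
  have hH0 : (0 : ℝ) < H := by exact_mod_cast hH
  have h5 : (v : ℝ) < v' + 1 := by
    have := lt_of_le_of_lt h1 h4
    exact (div_lt_div_iff_of_pos_right hH0).1 this
  have h6 : (v' : ℝ) < v + 1 := by
    have := lt_of_le_of_lt h3 h2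
    exact (div_lt_div_iff_of_pos_right hH0).1 this
  have h7 : v < v' + 1 := by exact_mod_cast h5
  have h8 : v' < v + 1 := by exact_mod_cast h6
  omega

/-- facts on the numbers `m` of `M` -/
theorem ele_facts (he : Ele t c Ap Bp M E ρ ϖ) {m : ℕ} (hm : M m) :
    Sm Ap Bp m ∧ lam m = 1 ∧ 1 ≤ m ∧ ϖ m ≠ 0 := by
  obtain ⟨p, q, hp, hq, rfl, -, -⟩ := he.fac m hm
  have hpp := (he.prA p hp).1
  have hqp := (he.prB q hq).1
  refine ⟨sm_mul (sm_prime hpp (Or.inl hp)) (sm_prime hqp (Or.inr hq)), lam_two hpp hqp,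
    Nat.mul_pos hpp.pos hqp.pos, ?_⟩
  intro h
  have h1 := (he.elt _ hm).1
  rw [h] at h1
  have : 0 < p * q := Nat.mul_pos hpp.pos hqp.pos
  rw [nm_zero] at h1
  omega

open scoped Classical in
/-- the smoothed number of divisors `ϖ m` -/
noncomputable def dT (M : ℕ → Prop) (ϖ : ℕ → Qd t c) (H v₀ v₁ : ℕ) (Y : ℝ) (z : Qd t c) : ℝ :=
  ∑ v ∈ Ico v₀ v₁, ∑ m ∈ cellM M H v, if ϖ m ∣ z then
    w (Real.log (nm z) - Real.log Y - (Real.log m - (v : ℝ) / H)) else 0

open scoped Classical in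
/-- the contribution of the non-primitive products -/
noncomputable def dB (M : ℕ → Prop) (ϖ : ℕ → Qd t c) (H v₀ v₁ : ℕ) (Y : ℝ) (z : Qd t c) : ℝ :=
  ∑ v ∈ Ico v₀ v₁, ∑ m ∈ cellM M H v, ∑ n ∈ m.divisors.erase 1,
    if ∃ u : Qd t c, prim u ∧ ϖ m * u = (n : Qd t c) * z then
      Vl m n (Real.log Y - (v : ℝ) / H) z else 0

theorem GG_eq (hD : t ^ 2 < 4 * c) {Y : ℝ} (hY : 0 < Y) (k : ℤ) :
    GG t c Y k = ∑ z ∈ pball t c (Real.exp 2 * Y),
      ((((gl z : ℝ) * w (Real.log (nm z) - Real.log Y)) / nm z : ℝ) : ℂ) * ps k z := by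
  unfold GG DPG
  have h12 : Real.exp 1 * Y ≤ Real.exp 2 * Y :=
    mul_le_mul_of_nonneg_right (Real.exp_le_exp.2 (by norm_num)) hY.le
  refine Finset.sum_congr_of_eq_on_inter ?_ ?_ ?_
  · intro z hz hz'
    exfalso
    rw [mem_pball hD] at hz hz'
    exact hz' ⟨hz.1, hz.2.trans h12⟩
  · intro z hz hz'
    rw [mem_pball hD] at hz hz'
    rw [bg_zero hD hY hz.1 (fun h => hz' ⟨hz.1, h⟩)]
    simp
  · intro z _ _
    unfold bg
    push_cast
    ring

theorem sum_eq (hD : t ^ 2 < 4 * c) (he : Ele t c Ap Bp M E ρ ϖ) {H v₀ v₁ : ℕ} (hH : 1 ≤ H)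
    {Y : ℝ} (hY : 0 < Y) {k : ℤ} (hk : Even k) :
    ∑ v ∈ Ico v₀ v₁, PE M ϖ H v k * GG t c (Y * Real.exp (-((v : ℝ) / H))) k =
      -∑ z ∈ pball t c (Real.exp 2 * Y),
        ((((gl z : ℝ) * dT M ϖ H v₀ v₁ Y z + dB M ϖ H v₀ v₁ Y z) / nm z : ℝ) : ℂ) * ps k z := by
  classical
  have hH0 : (0 : ℝ) < H := by exact_mod_cast hH
  have h1 : ∀ v ∈ Ico v₀ v₁, PE M ϖ H v k * GG t c (Y * Real.exp (-((v : ℝ) / H))) k =
      -∑ z ∈ pball t c (Real.exp 2 * Y), ∑ m ∈ cellM M H v,
        ((((gl z : ℝ) * (if ϖ m ∣ z then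
          w (Real.log (nm z) - Real.log Y - (Real.log m - (v : ℝ) / H)) else 0) +
          ∑ n ∈ m.divisors.erase 1,
            (if ∃ u : Qd t c, prim u ∧ ϖ m * u = (n : Qd t c) * z then
              Vl m n (Real.log Y - (v : ℝ) / H) z else 0)) / nm z : ℝ) : ℂ) * ps k z := by
    intro v _
    unfold PE
    rw [if_pos hk, neg_mul, Finset.sum_mul, Finset.sum_comm]
    congr 1
    refine Finset.sum_congr rfl fun m hm => ?_
    obtain ⟨hmM, hm1, hm2⟩ := cellM_facts hm
    obtain ⟨-, hlam, hmpos, hϖ⟩ := ele_facts he hmM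
    have hn := (he.elt m hmM).1
    have hm0 : (0 : ℝ) < m := by exact_mod_cast hmpos
    set Z : ℝ := Y * Real.exp (-((v : ℝ) / H)) with hZ
    have hZ0 : 0 < Z := by positivity
    have hlogZ : Real.log Z = Real.log Y - (v : ℝ) / H := by
      rw [hZ, Real.log_mul hY.ne' (Real.exp_pos _).ne', Real.log_exp]; ring
    have hmZ : (m : ℝ) * (Real.exp 1 * Z) ≤ Real.exp 2 * Y := by
      have h5 : (m : ℝ) ≤ Real.exp (1 + (v : ℝ) / H) := by
        rw [← Real.log_le_iff_le_exp hm0]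
        have h3 : ((v : ℝ) + 1) / H = (v : ℝ) / H + 1 / H := by ring
        have h4 : (1 : ℝ) / H ≤ 1 := by
          rw [div_le_one hH0]; exact_mod_cast hH
        linarith
      calc (m : ℝ) * (Real.exp 1 * Z) ≤ Real.exp (1 + (v : ℝ) / H) * (Real.exp 1 * Z) :=
            mul_le_mul_of_nonneg_right h5 (by positivity)
        _ = Real.exp 2 * Y := by
            rw [hZ]
            have : Real.exp (1 + (v : ℝ) / H) * (Real.exp 1 * (Y * Real.exp (-((v : ℝ) / H)))) =
              (Real.exp (1 + (v : ℝ) / H) * Real.exp 1 * Real.exp (-((v : ℝ) / H))) * Y := by ring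
            rw [this, ← Real.exp_add, ← Real.exp_add]
            congr 2
            ring
    have h2 := one_term hD hϖ (by rw [hn]; exact hlam) hZ0 (D := pball t c (Real.exp 2 * Y))
      (by
        intro z hz hz2
        rw [hn] at hz2
        rw [mem_pball hD]
        exact ⟨hz, hz2.trans hmZ⟩)
      (fun z hz => ((mem_pball hD).1 hz).1) k
    rw [hn] at h2
    rw [h2]
    refine Finset.sum_congr rfl fun z hz => ?_
    rw [mem_pball hD] at hz
    congr 2
    have h1m : 1 ∈ m.divisors := by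
      rw [Nat.mem_divisors]
      exact ⟨one_dvd _, by omega⟩
    rw [← Finset.sum_div, ← Finset.add_sum_erase _ _ h1m, hlogZ]
    congr 2
    have hiff : (∃ u : Qd t c, prim u ∧ ϖ m * u = ((1 : ℕ) : Qd t c) * z) ↔ ϖ m ∣ z := by
      constructor
      · rintro ⟨u, -, hu⟩
        rw [Nat.cast_one, one_mul] at hu
        exact ⟨u, hu.symm⟩
      · rintro ⟨u, rfl⟩
        refine ⟨u, prim_of_dvd hz.1 (Dvd.intro_left _ rfl), ?_⟩
        rw [Nat.cast_one, one_mul]
    by_cases hd : ϖ m ∣ z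
    · rw [if_pos (hiff.2 hd), if_pos hd]
      unfold Vl
      rw [Nat.cast_one, Real.log_one]
      have e1 : Real.log (nm z) + 2 * 0 - Real.log m - (Real.log Y - (v : ℝ) / H) =
        Real.log (nm z) - Real.log Y - (Real.log m - (v : ℝ) / H) := by ring
      rw [e1]
      ring
    · rw [if_neg (fun h => hd (hiff.1 h)), if_neg hd, mul_zero]
  rw [Finset.sum_congr rfl h1, Finset.sum_neg_distrib, Finset.sum_comm]
  congr 1
  refine Finset.sum_congr rfl fun z _ => ?_
  rw [← Finset.sum_congr rfl (fun v _ => Finset.sum_mul _ _ _), ← Finset.sum_mul]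
  congr 1
  unfold dT dB
  rw [Finset.mul_sum, ← Finset.sum_add_distrib, Finset.sum_div]
  push_cast
  refine Finset.sum_congr rfl fun v _ => ?_
  rw [Finset.mul_sum, ← Finset.sum_add_distrib, Finset.sum_div]

open scoped Classical in
/-- one term of the contribution of the non-primitive products -/
theorem dB_term (hD : t ^ 2 < 4 * c) {H v m n : ℕ} (hH : 1 ≤ H) (hm : m ∈ cellM M H v)
    (hn : n ≠ 0) {Y : ℝ} (hY : 0 < Y) {z : Qd t c} (hz : z ≠ 0) {J : Prop}
    (hl : ∀ u : Qd t c, ϖ m * u = (n : Qd t c) * z → J) :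
    |if ∃ u : Qd t c, prim u ∧ ϖ m * u = (n : Qd t c) * z then
      Vl m n (Real.log Y - (v : ℝ) / H) z else 0| ≤
      if z ∈ win t c (Y / (n : ℝ) ^ 2) ∧ J then 1 / (n : ℝ) ^ 2 else 0 := by
  have hN : (0 : ℝ) < nm z := nm_posR hD hz
  have hn0 : (0 : ℝ) < n := by exact_mod_cast Nat.pos_of_ne_zero hn
  have hH0 : (0 : ℝ) < H := by exact_mod_cast hH
  obtain ⟨-, hm1, hm2⟩ := cellM_facts hm
  by_cases hex : ∃ u : Qd t c, prim u ∧ ϖ m * u = (n : Qd t c) * z
  · rw [if_pos hex]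
    obtain ⟨u, -, hu⟩ := hex
    have hlat := hl u hu
    by_cases hin : z ∈ win t c (Y / (n : ℝ) ^ 2)
    · rw [if_pos ⟨hin, hlat⟩]
      unfold Vl
      rw [abs_div, abs_mul, abs_of_pos (by positivity : (0:ℝ) < (n:ℝ)^2)]
      apply div_le_div_of_nonneg_right _ (by positivity)
      have h1 : |(gl z : ℝ)| ≤ 1 := by
        rcases gl_eq z with h | h <;> rw [h] <;> simp
      have h2 : |w (Real.log (nm z) + 2 * Real.log n - Real.log m -
          (Real.log Y - (v : ℝ) / H))| ≤ 1 := by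
        rw [abs_of_nonneg (dec_w_nonneg _)]; exact dec_w_le _
      exact mul_le_one₀ h1 (abs_nonneg _) h2
    · have hw : w (Real.log (nm z) + 2 * Real.log n - Real.log m -
          (Real.log Y - (v : ℝ) / H)) = 0 := by
        apply dec_w_zero
        by_contra hcon
        rw [not_le, abs_lt] at hcon
        obtain ⟨ha, hb'⟩ := hcon
        apply hin
        have h3 : ((v : ℝ) + 1) / H = (v : ℝ) / H + 1 / H := by ring
        have h4 : (1 : ℝ) / H ≤ 1 := by
          rw [div_le_one hH0]; exact_mod_cast hH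
        have hlz : Real.log (Y / (n:ℝ)^2) = Real.log Y - 2 * Real.log n := by
          rw [Real.log_div hY.ne' (by positivity), Real.log_pow]; push_cast; ring
        rw [mem_win hD]
        refine ⟨nm_pos hD hz, ?_, ?_⟩
        · rw [← Real.log_le_log_iff (by positivity) hN,
            Real.log_div (by positivity) (Real.exp_pos 2).ne', Real.log_exp, hlz]
          linarith
        · rw [← Real.log_le_log_iff hN (by positivity),
            Real.log_mul (Real.exp_pos 2).ne' (by positivity), Real.log_exp, hlz]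
          linarith
      unfold Vl
      rw [hw]
      simp only [mul_zero, zero_div, abs_zero]
      split_ifs <;> positivity
  · rw [if_neg hex, abs_zero]
    split_ifs <;> positivity

end Pool.Agent.W638.GA
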